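import Pool.Agent.H27.L1.H34.GA.Targets1
import Pool.Agent.H27.L1.H30.GU.POU

/-!
# POV: Poisson summation over the matrices with a given value at a vector (board ga, page
H34_GA.md), after Pool.Agent.H27.L1.H30.GU.POU
-/

set_option autoImplicit false

namespace Pool.Agent.H27.L1.H51.GA.PV

open MeasureTheory Pool.Agent.H27.L1.H34.GM Pool.Agent.H27.L1.H34.GZ Pool.Agent.H27.L1.H34.GU Pool.Agent.H27.L1.H34.GA
open Pool.Agent.H27.L1.H8.GZ.PA (fin_box aN_pos)

/-- the kernel has finite support -/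
theorem fin_supp {m : ℕ} {Φ : Mat m → ℂ} (hΦ : Tg m Φ) {r : ℝ} (hr : 0 < r) {z g : Mat m}
    (hz : z.det ≠ 0) (hg : g.det ≠ 0) :
    {α : ZM m | Φ (kk r z (cR α) g) ≠ 0}.Finite := by
  obtain ⟨c, hc, hs⟩ := hΦ.supp
  set L : ℝ := r⁻¹ * aN z / aN g with hL
  have hL0 : 0 < L := by
    have := aN_pos z hz
    have := aN_pos g hg
    positivity
  have h1 : ContinuousOn (fun w : V m => ((fun i j => (L⁻¹ • (z * mt w * g⁻¹)) i j) : V m))
      (Metric.closedBall 0 c) := by
    have : Continuous (fun w : Mat m => L⁻¹ • (z * w * g⁻¹)) := by fun_prop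
    have h2 : Continuous (fun w : V m => ((fun i j => (L⁻¹ • (z * mt w * g⁻¹)) i j) : V m)) :=
      this
    exact h2.continuousOn
  obtain ⟨B, hB⟩ := (isCompact_closedBall (0 : V m) c).exists_bound_of_continuousOn h1
  refine (fin_box B).subset ?_
  intro α hα
  have h3 := (hs _ hα).1
  have h4 := hB (fun i j => kk r z (cR α) g i j) (by
    rw [mem_closedBall_zero_iff]
    exact h3)
  have h5 : L⁻¹ • (z * kk r z (cR α) g * g⁻¹) = cR α := by
    unfold kk
    rw [← hL, Matrix.mul_smul, Matrix.smul_mul, smul_smul, inv_mul_cancel₀ hL0.ne', one_smul,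
      ← Matrix.mul_assoc, ← Matrix.mul_assoc, Matrix.mul_nonsing_inv _
      (isUnit_iff_ne_zero.2 hz), Matrix.one_mul, Matrix.mul_assoc, Matrix.mul_nonsing_inv _
      (isUnit_iff_ne_zero.2 hg), Matrix.mul_one]
  have h6 : sz (cR α) = ‖((fun i j => (L⁻¹ • (z * mt (fun i j => kk r z (cR α) g i j)
      * g⁻¹)) i j) : V m)‖ := by
    have h7 : mt (fun i j => kk r z (cR α) g i j) = kk r z (cR α) g := by
      ext i j
      rfl
    rw [h7, h5]
    rfl
  rw [Set.mem_ofPred_eq, h6]
  exact h4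

end Pool.Agent.H27.L1.H51.GA.PV

namespace Pool.Agent.H27.L1.H51.GA

open MeasureTheory Pool.Agent.H27.L1.H34.GM Pool.Agent.H27.L1.H34.GZ Pool.Agent.H27.L1.H34.GU Pool.Agent.H27.L1.H34.GA

open Classical in
theorem pf_POV : T_POA → T_PSU → T_PSZ → T_ALZ → T_POV := by
  intro h1 h2 h3 h4 m N _ hm hN Φ hΦ g h r x y hg hh hr _
  obtain ⟨h0, ha, hn, -, -⟩ := h2 m N hm hN
  obtain ⟨-, -, hcard, -⟩ := h4 m N hm hN
  obtain ⟨-, -, -, -, -, -, -, hz⟩ := h3 m N hm hN
  have hNR : (N : ℝ) ≠ 0 := by exact_mod_cast NeZero.ne N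
  set f : ZM m → ℂ := fun α => Φ (kk r h (cR α) g) with hf
  set A : ZM m → ℂ := fun β => ft Φ (kk ((N : ℝ) / r) g (cR β) h) with hAdef
  have hfin : {α : ZM m | f α ≠ 0}.Finite :=
    PV.fin_supp hΦ.toTg hr hh hg
  have hA : Summable fun β => ‖A β‖ := (h1 m N hm hN Φ hΦ g h r 0 hg hh hr).1
  have hP : ∀ c : RM m N, ∑' α : ZM m, (if cQ N α = c then f α else 0) =
      ((r ^ (m ^ 2) / (N : ℝ) ^ (m ^ 2) : ℝ) : ℂ) * ∑' β : ZM m, psq N (cQ N β * c) * A β :=
    fun c => (h1 m N hm hN Φ hΦ g h r c hg hh hr).2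
  have hqn : ∀ a : RM m N, ‖psq N a‖ = 1 := fun a => hn a.trace
  -- the left side
  have hs1 : ∀ c : RM m N, Summable fun α : ZM m =>
      (if c.mulVec x = y then (if cQ N α = c then f α else 0) else 0) := by
    intro c
    refine summable_of_hasFiniteSupport (hfin.subset ?_)
    intro α hα hfα
    apply hα
    show (if c.mulVec x = y then (if cQ N α = c then f α else 0) else 0) = 0
    rw [hfα, ite_self, ite_self]
  have hL : ∑' α : ZM m, (if ac N α x = y then f α else 0) =
      ∑ c : RM m N, (if c.mulVec x = y then ∑' α : ZM m, (if cQ N α = c then f α else 0)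
        else 0) := by
    have e1 : ∀ α : ZM m, (if ac N α x = y then f α else 0) =
        ∑ c : RM m N, (if c.mulVec x = y then (if cQ N α = c then f α else 0) else 0) := by
      intro α
      rw [Finset.sum_eq_single (cQ N α)]
      · rw [if_pos rfl]; rfl
      · intro c _ hc
        rw [if_neg (Ne.symm hc), ite_self]
      · intro hc
        exact absurd (Finset.mem_univ _) hc
    rw [tsum_congr e1, Summable.tsum_finsetSum fun c _ => hs1 c]
    refine Finset.sum_congr rfl fun c _ => ?_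
    split_ifs with hc
    · rfl
    · exact tsum_zero
  have hsA : ∀ w : ZM m → ℂ, (∀ β, ‖w β‖ ≤ 1) → Summable fun β => w β * A β := by
    intro w hw
    refine Summable.of_norm_bounded hA fun β => ?_
    rw [norm_mul]
    exact mul_le_of_le_one_left (norm_nonneg _) (hw β)
  -- the right side
  have hR : ∑ v : VN m N, psn N (dt v y) * ∑' β : ZM m,
      (if cQ N β = Matrix.vecMulVec x v then A β else 0) =
      ∑' β : ZM m, (∑ v : VN m N, (if cQ N β = Matrix.vecMulVec x v then psn N (dt v y)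
        else 0)) * A β := by
    have e1 : ∀ v : VN m N, psn N (dt v y) * ∑' β : ZM m,
        (if cQ N β = Matrix.vecMulVec x v then A β else 0) =
        ∑' β : ZM m, (if cQ N β = Matrix.vecMulVec x v then psn N (dt v y) else 0) * A β := by
      intro v
      rw [← tsum_mul_left]
      refine tsum_congr fun β => ?_
      split_ifs
      · rfl
      · rw [mul_zero, zero_mul]
    rw [Finset.sum_congr rfl fun v _ => e1 v, ← Summable.tsum_finsetSum]
    · exact tsum_congr fun β => by rw [Finset.sum_mul]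
    · intro v _
      refine hsA _ fun β => ?_
      split_ifs
      · rw [hn]
      · rw [norm_zero]; exact zero_le_one
  have hL2 : ∑ c : RM m N, (if c.mulVec x = y then ∑' α : ZM m, (if cQ N α = c then f α else 0)
        else 0) = ((r ^ (m ^ 2) / (N : ℝ) ^ (m ^ 2) : ℝ) : ℂ) *
        ∑' β : ZM m, (∑ c : RM m N, (if c.mulVec x = y then psq N (cQ N β * c) else 0)) * A β := by
    have e1 : ∀ c : RM m N, (if c.mulVec x = y then ∑' α : ZM m, (if cQ N α = c then f α else 0)
        else 0) = ((r ^ (m ^ 2) / (N : ℝ) ^ (m ^ 2) : ℝ) : ℂ) *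
        ∑' β : ZM m, (if c.mulVec x = y then psq N (cQ N β * c) else 0) * A β := by
      intro c
      split_ifs with hc
      · exact hP c
      · simp only [zero_mul, tsum_zero, mul_zero]
    rw [Finset.sum_congr rfl fun c _ => e1 c, ← Finset.mul_sum, ← Summable.tsum_finsetSum]
    · congr 1
      exact tsum_congr fun β => by rw [Finset.sum_mul]
    · intro c _
      refine hsA _ fun β => ?_
      split_ifs
      · rw [hqn]
      · rw [norm_zero]; exact zero_le_one
  change ∑' α : ZM m, (if ac N α x = y then f α else 0) = _ * ∑ v : VN m N, psn N (dt v y) *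
    ∑' β : ZM m, (if cQ N β = Matrix.vecMulVec x v then A β else 0)
  rw [hL, hL2, hR]
  have e2 : ∀ β : ZM m, (∑ c : RM m N, (if c.mulVec x = y then psq N (cQ N β * c) else 0)) * A β =
      (N : ℂ) ^ (m ^ 2 - m) * ((∑ v : VN m N, (if cQ N β = Matrix.vecMulVec x v then
        psn N (dt v y) else 0)) * A β) := by
    intro β
    rw [Pool.Agent.H27.L1.H30.GU.PS.fin_id hm h0 ha hcard hz, mul_assoc]
  rw [tsum_congr e2, tsum_mul_left, ← mul_assoc]
  congr 1
  have hmm : m ^ 2 = m + (m ^ 2 - m) := by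
    have : m ≤ m ^ 2 := by nlinarith
    omega
  have hNC : (N : ℂ) ≠ 0 := by exact_mod_cast NeZero.ne N
  push_cast
  rw [div_mul_eq_mul_div, div_eq_div_iff (pow_ne_zero _ hNC) (pow_ne_zero _ hNC), mul_assoc,
    ← pow_add, add_comm (m ^ 2 - m) m, ← hmm]

end Pool.Agent.H27.L1.H51.GA
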